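import Pool.Agent.TFF.Main

/-! # MP_0bd9c9_co: tetrahedra with a face-to-face tiling

Let `T` be a tetrahedron whose edge ratios are not all algebraic. Then `T` has a face-to-face
monohedral tiling of 3-space (reflected copies allowed) if and only if `T` is a Hill tetrahedron
or half of a Hill tetrahedron, and in that case it has a periodic one. So the negated form of Q1
holds for face-to-face tilings, except for countably many shapes. -/

set_option autoImplicit false

open Pool.Agent.TetRel Pool.Agent.TFF

theorem Pool.Agent.Results.MP_0bd9c9_co.FaceToFace.result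
    (v : Fin 4 → E3) (hv : AffineIndependent ℝ v)
    (hna : ∃ i j k l : Fin 4, ¬ IsAlgebraic ℚ (dist (v i) (v j) / dist (v k) (v l))) :
    (FFTiles v ↔
      (∃ τ : Equiv.Perm (Fin 4), Hill4 (v (τ 0)) (v (τ 1)) (v (τ 2)) (v (τ 3))) ∨
      (∃ τ : Equiv.Perm (Fin 4), Hill4 (v (τ 3)) (v (τ 1)) (v (τ 2)) ((2 : ℝ) • v (τ 0) - v (τ 3)))) ∧
    (FFTiles v → FFPer v) :=
  main v hv hna
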