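import Pool.Agent.TetMid83.FinalM

/-! # MP_0bd9c9_co: tetrahedra whose six edges are tangent to one sphere

Let `T` be a tetrahedron in which the three sums of the lengths of two opposite edges are equal
(equivalently, the six edges are tangent to one sphere), and suppose that the ratios of its edge
lengths are not all algebraic numbers. Then `T` does not tile 3-space monohedrally. So the negated
form of Q1 holds for all these tetrahedra, except countably many shapes, because nothing tiles. -/

set_option autoImplicit false

open Pool.Agent.TetRel

theorem Pool.Agent.Results.MP_0bd9c9_co.MidSphere.result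
    (v : Fin 4 → E3) (hv : AffineIndependent ℝ v)
    (h1 : dist (v 0) (v 1) + dist (v 2) (v 3) = dist (v 0) (v 2) + dist (v 1) (v 3))
    (h2 : dist (v 0) (v 1) + dist (v 2) (v 3) = dist (v 0) (v 3) + dist (v 1) (v 2))
    (hna : ∃ i j k l : Fin 4, ¬ IsAlgebraic ℚ (dist (v i) (v j) / dist (v k) (v l))) :
    ¬ Tiles v := by
  intro hT
  obtain ⟨i, j, k, l, h⟩ := hna
  exact h (Pool.Agent.TetMid83.mid_alg v hv h1 h2 hT i j k l)
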