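import Pool.Agent.TetMir57.SymFinal

/-! # MP_0bd9c9_co: tetrahedra with a nontrivial symmetry

Let `T` be a tetrahedron with a nontrivial symmetry (a permutation `σ ≠ 1` of the vertices which
preserves the distances) and suppose that the ratios of its edge lengths are not all algebraic
numbers. Then `T` tiles 3-space monohedrally if and only if it is a Hill tetrahedron, and in that
case it tiles 3-space periodically. So the negated form of Q1 holds for all tetrahedra with a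
nontrivial symmetry, except countably many shapes. -/

set_option autoImplicit false

open Pool.Agent.TetRel

theorem Pool.Agent.Results.MP_0bd9c9_co.Symmetric.result
    (v : Fin 4 → E3) (hv : AffineIndependent ℝ v)
    (hsym : ∃ σ : Equiv.Perm (Fin 4), σ ≠ 1 ∧ ∀ i j, dist (v (σ i)) (v (σ j)) = dist (v i) (v j))
    (hna : ∃ i j k l : Fin 4, ¬ IsAlgebraic ℚ (dist (v i) (v j) / dist (v k) (v l))) :
    (Tiles v ↔ ∃ τ : Equiv.Perm (Fin 4),
      ‖v (τ 1) - v (τ 0)‖ = ‖v (τ 2) - v (τ 1)‖ ∧ ‖v (τ 2) - v (τ 1)‖ = ‖v (τ 3) - v (τ 2)‖ ∧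
      inner ℝ (v (τ 1) - v (τ 0)) (v (τ 2) - v (τ 1)) =
        inner ℝ (v (τ 2) - v (τ 1)) (v (τ 3) - v (τ 2)) ∧
      inner ℝ (v (τ 2) - v (τ 1)) (v (τ 3) - v (τ 2)) =
        inner ℝ (v (τ 1) - v (τ 0)) (v (τ 3) - v (τ 2))) ∧
    (Tiles v → ∃ S : Set (Set E3),
      (∀ A ∈ S, ∃ φ : E3 ≃ᵢ E3, A = φ '' convexHull ℝ (Set.range v)) ∧
      ⋃₀ S = Set.univ ∧ S.Pairwise (fun A B => Disjoint (interior A) (interior B)) ∧
      ∃ a : Fin 3 → E3, LinearIndependent ℝ a ∧ ∀ i, ∀ A ∈ S, (fun x => x + a i) '' A ∈ S) :=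
  Pool.Agent.TetMir.sym v hv hsym hna
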