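import Pool.Agent.TetDim.Final

/-! # MP_0bd9c9_co: the set of tetrahedra that tile space has dimension exactly 2

The six edge lengths of the tetrahedra that tile 3-space monohedrally form a set of Hausdorff
dimension exactly 2 in the 6-dimensional space of all edge lengths. -/

set_option autoImplicit false

open Pool.Agent.TetRel

theorem Pool.Agent.Results.MP_0bd9c9_co.TileDimTwo.result :
    dimH {l : Fin 6 → ℝ | ∃ v : Fin 4 → E3, AffineIndependent ℝ v ∧ Tiles v ∧ l = len v} = 2 :=
  Pool.Agent.TetDim.dim_eq
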